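import Pool.Agent.W172.MK.Stm

/-!
# Project MK (helper172): resampling one coordinate
-/

set_option autoImplicit false

namespace Pool.Agent.W101.MK

open MeasureTheory ProbabilityTheory Filter Topology Pool.Agent.W172.MK

/-- the resampling map -/
def upd (M t : ℕ) (p : (ℕ → Fin (M + 1)) × Fin (M + 1)) : ℕ → Fin (M + 1) :=
  Function.update p.1 t p.2

theorem upd_meas (M t : ℕ) : Measurable (upd M t) := by
  refine measurable_pi_lambda _ fun i => ?_
  by_cases h : i = t
  · subst h
    simp only [upd, Function.update_self]
    exact measurable_snd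
  · simp only [upd, Function.update_of_ne h]
    exact (measurable_pi_apply i).comp measurable_fst

theorem upd_map (M t : ℕ) :
    ((muSeq M).prod (unif (Fin (M + 1)))).map (upd M t) = muSeq M := by
  classical
  refine Measure.eq_infinitePi _ fun I A hA => ?_
  rw [Measure.map_apply (upd_meas M t) (MeasurableSet.pi I.countable_toSet fun i _ => hA i)]
  have hpre : upd M t ⁻¹' (Set.pi (I : Set ℕ) A) =
      (Set.pi ((I.erase t : Finset ℕ) : Set ℕ) A) ×ˢ (if t ∈ I then A t else Set.univ) := by
    ext ⟨z, c⟩
    simp only [Set.mem_preimage, Set.mem_pi, Set.mem_prod, Finset.mem_coe, Finset.mem_erase, upd]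
    constructor
    · intro h
      refine ⟨fun i hi => ?_, ?_⟩
      · have := h i hi.2
        rwa [Function.update_of_ne hi.1] at this
      · split_ifs with ht
        · have := h t ht
          rwa [Function.update_self] at this
        · trivial
    · rintro ⟨h1, h2⟩ i hi
      by_cases hit : i = t
      · subst hit
        rw [if_pos hi] at h2
        rwa [Function.update_self]
      · rw [Function.update_of_ne hit]
        exact h1 i ⟨hit, hi⟩
  rw [hpre, Measure.prod_prod]
  have h1 : muSeq M (Set.pi ((I.erase t : Finset ℕ) : Set ℕ) A) =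
      ∏ i ∈ I.erase t, unif (Fin (M + 1)) (A i) := by
    unfold muSeq
    exact Measure.infinitePi_pi _ (fun i _ => hA i)
  rw [h1]
  by_cases ht : t ∈ I
  · rw [if_pos ht, Finset.prod_erase_mul _ _ ht]
  · rw [if_neg ht, Finset.erase_eq_of_notMem ht, measure_univ, mul_one]

theorem int_unif (M : ℕ) (f : Fin (M + 1) → ℝ) :
    ∫ c, f c ∂(unif (Fin (M + 1))) = (∑ c, f c) / ((M : ℝ) + 1) := by
  unfold unif
  rw [integral_smul_measure, integral_count, Fintype.card_fin, ENNReal.toReal_inv,
    ENNReal.toReal_natCast, smul_eq_mul, div_eq_inv_mul]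
  push_cast
  rfl

theorem res : P_RES := by
  intro M f hf hC t
  obtain ⟨C, hC⟩ := hC
  conv_lhs => rw [← upd_map M t]
  rw [integral_map (upd_meas M t).aemeasurable hf.aestronglyMeasurable, integral_prod]
  · refine integral_congr_ae (ae_of_all _ fun z => ?_)
    exact int_unif M (fun c => f (Function.update z t c))
  · refine Integrable.of_bound ((hf.comp (upd_meas M t)).aestronglyMeasurable) C
      (ae_of_all _ fun p => ?_)
    rw [Real.norm_eq_abs]
    exact hC _

end Pool.Agent.W101.MK
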